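import Pool.Agent.Q98.SPN.Stm

/-!
# Project SPN (helper98), job COLS: the norm of selected columns
-/

set_option autoImplicit false

open scoped Matrix.Norms.L2Operator Matrix

namespace Pool.Agent.Q154.SPN

open Finset Pool.Agent.Q98.SPN

theorem COLS_ok : S_COLS := by
  intro d Q l b hb hQ r e he hle
  have hl : ∀ j, 0 ≤ l j := by
    intro j
    have h1 := congrFun (congrFun hQ j) j
    rw [Matrix.diagonal_apply_eq, Matrix.mul_apply] at h1
    have h2 : ((∑ i, ‖Q i j‖ ^ 2 : ℝ) : ℂ) = ((l j : ℝ) : ℂ) := by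
      rw [← h1]
      push_cast
      refine Finset.sum_congr rfl fun i _ => ?_
      rw [Matrix.conjTranspose_apply]
      have := Complex.conj_mul' (Q i j)
      rw [← this]
      rfl
    have h3 := Complex.ofReal_injective h2
    rw [← h3]
    positivity
  have h1 : (Q.submatrix id e)ᴴ * Q.submatrix id e = Matrix.diagonal fun j => ((l (e j) : ℝ) : ℂ) := by
    ext i j
    have h2 := congrFun (congrFun hQ (e i)) (e j)
    rw [Matrix.mul_apply] at h2 ⊢
    have h3 : ∑ k, (Q.submatrix id e)ᴴ i k * Q.submatrix id e k j = ∑ k, Qᴴ (e i) k * Q k (e j) := rfl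
    rw [h3, h2, Matrix.diagonal_apply, Matrix.diagonal_apply]
    by_cases hij : i = j
    · rw [if_pos hij, if_pos (congrArg e hij)]
    · rw [if_neg hij, if_neg (fun h => hij (he h))]
  have h2 : ‖Q.submatrix id e‖ * ‖Q.submatrix id e‖ ≤ b ^ 2 := by
    rw [← Matrix.l2_opNorm_conjTranspose_mul_self, h1, Matrix.l2_opNorm_diagonal,
      pi_norm_le_iff_of_nonneg (by positivity)]
    intro j
    rw [Complex.norm_real, Real.norm_of_nonneg (hl _)]
    exact hle j
  exact abs_le_of_sq_le_sq' (by rw [sq]; exact h2) hb |>.2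

end Pool.Agent.Q154.SPN
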