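import Pool.Agent.Q98.SPN.Stm

/-!
# Project SPN (helper98), job NET: nets of balls
-/

set_option autoImplicit false

namespace Pool.Agent.Q154.SPN

open Finset Pool.Agent.Q98.SPN

/-- a maximal separated set -/
theorem net_one (E : Type) [NormedAddCommGroup E] [NormedSpace ℝ E] [FiniteDimensional ℝ E] :
    ∃ F : Finset E, F.card ≤ 5 ^ (Module.finrank ℝ E) ∧ ∀ x : E, ‖x‖ ≤ 2 → ∃ y ∈ F, ‖x - y‖ ≤ 1 := by
  classical
  obtain ⟨P, hP⟩ : ∃ P : ℕ → Prop, ∀ n, P n ↔ ∃ s : Finset E, (∀ c ∈ s, ‖c‖ ≤ 2) ∧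
      (∀ c ∈ s, ∀ d ∈ s, c ≠ d → 1 ≤ ‖c - d‖) ∧ s.card = n :=
    ⟨fun n => ∃ s : Finset E, (∀ c ∈ s, ‖c‖ ≤ 2) ∧
      (∀ c ∈ s, ∀ d ∈ s, c ≠ d → 1 ≤ ‖c - d‖) ∧ s.card = n, fun n => Iff.rfl⟩
  have h0 : P 0 := (hP 0).2 ⟨∅, by simp, by simp, rfl⟩
  have hb : ∀ n, P n → n ≤ 5 ^ (Module.finrank ℝ E) := by
    intro n hn
    obtain ⟨s, hs, hsep, rfl⟩ := (hP n).1 hn
    exact Besicovitch.card_le_of_separated s hs hsep
  have hm := Nat.findGreatest_spec (P := P) (Nat.zero_le (5 ^ (Module.finrank ℝ E))) h0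
  obtain ⟨s, hs, hsep, hcard⟩ := (hP _).1 hm
  refine ⟨s, ?_, fun x hx => ?_⟩
  · rw [hcard]
    exact Nat.findGreatest_le _
  · by_contra hcon
    push Not at hcon
    have hxs : x ∉ s := by
      intro h
      have := hcon x h
      rw [sub_self, norm_zero] at this
      linarith
    have h1 : P (s.card + 1) := by
      refine (hP _).2 ⟨insert x s, ?_, ?_, Finset.card_insert_of_notMem hxs⟩
      · intro c hc
        rcases Finset.mem_insert.1 hc with rfl | hc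
        · exact hx
        · exact hs c hc
      · intro c hc d hd hcd
        rcases Finset.mem_insert.1 hc with h1 | h1
        · rcases Finset.mem_insert.1 hd with h2 | h2
          · exact absurd (h1.trans h2.symm) hcd
          · rw [h1]
            exact (hcon d h2).le
        · rcases Finset.mem_insert.1 hd with h2 | h2
          · rw [h2, norm_sub_rev]
            exact (hcon c h1).le
          · exact hsep c h1 d h2 hcd
    have h2 := Nat.le_findGreatest (hb _ h1) h1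
    omega

theorem net_two (E : Type) [NormedAddCommGroup E] [NormedSpace ℝ E] [FiniteDimensional ℝ E] (δ : ℝ) (hδ : 0 < δ) :
    ∃ F : Finset E, F.card ≤ 5 ^ (Module.finrank ℝ E) ∧ ∀ x : E, ‖x‖ ≤ 2 * δ → ∃ y ∈ F, ‖x - y‖ ≤ δ := by
  classical
  obtain ⟨F, hF, h⟩ := net_one E
  refine ⟨F.image fun y => δ • y, Finset.card_image_le.trans hF, fun x hx => ?_⟩
  obtain ⟨y, hy, h1⟩ := h (δ⁻¹ • x) (by
    rw [norm_smul, Real.norm_of_nonneg (inv_nonneg.2 hδ.le), inv_mul_le_iff₀ hδ]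
    linarith)
  refine ⟨δ • y, Finset.mem_image_of_mem _ hy, ?_⟩
  have e : x - δ • y = δ • (δ⁻¹ • x - y) := by
    rw [smul_sub, smul_smul, mul_inv_cancel₀ hδ.ne', one_smul]
  rw [e, norm_smul, Real.norm_of_nonneg hδ.le]
  calc δ * ‖δ⁻¹ • x - y‖ ≤ δ * 1 := mul_le_mul_of_nonneg_left h1 hδ.le
    _ = δ := mul_one δ

theorem NET_ok : S_NET := by
  classical
  intro E _ _ _ j
  induction j with
  | zero =>
    intro δ hδ
    refine ⟨{0}, by simp, fun x hx => ⟨0, Finset.mem_singleton_self _, ?_⟩⟩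
    rw [sub_zero]
    simpa using hx
  | succ j ih =>
    intro δ hδ
    obtain ⟨F, hF, h⟩ := ih δ hδ
    obtain ⟨G, hG, h'⟩ := net_two E (2 ^ j * δ) (by positivity)
    refine ⟨(G ×ˢ F).image fun p => p.1 + p.2, ?_, fun x hx => ?_⟩
    · calc ((G ×ˢ F).image fun p => p.1 + p.2).card ≤ (G ×ˢ F).card := Finset.card_image_le
        _ = G.card * F.card := Finset.card_product _ _
        _ ≤ 5 ^ (Module.finrank ℝ E) * 5 ^ (Module.finrank ℝ E * j) := Nat.mul_le_mul hG hF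
        _ = 5 ^ (Module.finrank ℝ E * (j + 1)) := by rw [← pow_add, mul_add, mul_one, add_comm]
    · obtain ⟨g, hg, h1⟩ := h' x (by
        rw [pow_succ] at hx
        linarith)
      obtain ⟨f, hf, h2⟩ := h (x - g) h1
      refine ⟨g + f, Finset.mem_image.2 ⟨(g, f), Finset.mem_product.2 ⟨hg, hf⟩, rfl⟩, ?_⟩
      rwa [← sub_sub]

end Pool.Agent.Q154.SPN
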